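import Pool.Agent.Helper4.HZ.Goals

/-! # Project HZ, packet AUA: automorphisms of `PSL₂(p)` and unipotent elements -/

namespace Pool.Agent.Helper8.HZ

open Pool.Agent.Helper4.HZ Matrix

variable {p : ℕ} [Fact p.Prime]

/-- the class of a matrix -/
abbrev mk' (A : SpecialLinearGroup (Fin 2) (ZMod p)) : PSL2 p := QuotientGroup.mk A

theorem det2 (A : SpecialLinearGroup (Fin 2) (ZMod p)) :
    A.1 0 0 * A.1 1 1 - A.1 0 1 * A.1 1 0 = 1 := by
  rw [← Matrix.det_fin_two]
  exact A.2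

/-- upper unipotent matrix -/
def Um (x : ZMod p) : SpecialLinearGroup (Fin 2) (ZMod p) :=
  ⟨!![1, x; 0, 1], by simp [Matrix.det_fin_two]⟩

/-- lower unipotent matrix -/
def Vm (x : ZMod p) : SpecialLinearGroup (Fin 2) (ZMod p) :=
  ⟨!![1, 0; x, 1], by simp [Matrix.det_fin_two]⟩

theorem uu_def (x : ZMod p) : uu p x = mk' (Um x) := rfl
theorem vv_def (x : ZMod p) : vv p x = mk' (Vm x) := rfl
theorem mk_mul (A B : SpecialLinearGroup (Fin 2) (ZMod p)) : mk' (A * B) = mk' A * mk' B := rfl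

theorem entry_mul (A B : SpecialLinearGroup (Fin 2) (ZMod p)) (i j : Fin 2) :
    (A * B).1 i j = A.1 i 0 * B.1 0 j + A.1 i 1 * B.1 1 j := by
  have h : (A * B).1 = A.1 * B.1 := rfl
  rw [h, Matrix.mul_apply, Fin.sum_univ_two]

theorem inv_val (D : SpecialLinearGroup (Fin 2) (ZMod p)) :
    (D⁻¹).1 = !![D.1 1 1, -D.1 0 1; -D.1 1 0, D.1 0 0] := by
  have h : (D⁻¹).1 = adjugate D.1 := rfl
  rw [h, adjugate_fin_two]

theorem mk_eq {A B : SpecialLinearGroup (Fin 2) (ZMod p)} :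
    mk' A = mk' B ↔ ∃ r : ZMod p, r * r = 1 ∧ ∀ i j, B.1 i j = A.1 i j * r := by
  refine (QuotientGroup.eq (s := Subgroup.center (SpecialLinearGroup (Fin 2) (ZMod p)))).trans ?_
  refine Matrix.SpecialLinearGroup.mem_center_iff.trans ?_
  constructor
  · rintro ⟨r, hr, h⟩
    refine ⟨r, by simpa [pow_two] using hr, fun i j => ?_⟩
    have h1 : B.1 = A.1 * scalar (Fin 2) r := by
      rw [h]
      exact congrArg Subtype.val (mul_inv_cancel_left A B).symm
    rw [h1]
    simp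
  · rintro ⟨r, hr, h⟩
    refine ⟨r, by simpa [pow_two] using hr, ?_⟩
    have h1 : B.1 = A.1 * scalar (Fin 2) r := by
      ext i j
      rw [h]
      simp
    have h2 : (A⁻¹ * B).1 = (A⁻¹ * A).1 * scalar (Fin 2) r := by
      change (A⁻¹).1 * B.1 = (A⁻¹).1 * A.1 * scalar (Fin 2) r
      rw [h1, Matrix.mul_assoc]
    rw [inv_mul_cancel] at h2
    refine Eq.trans ?_ h2.symm
    exact (Matrix.one_mul _).symm

theorem uu_add (x y : ZMod p) : uu p (x + y) = uu p x * uu p y := by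
  rw [uu_def, uu_def, uu_def, ← mk_mul]
  congr 1
  apply Subtype.ext
  ext i j
  rw [entry_mul]
  fin_cases i <;> fin_cases j <;> simp [Um, add_comm]

theorem vv_add (x y : ZMod p) : vv p (x + y) = vv p x * vv p y := by
  rw [vv_def, vv_def, vv_def, ← mk_mul]
  congr 1
  apply Subtype.ext
  ext i j
  rw [entry_mul]
  fin_cases i <;> fin_cases j <;> simp [Vm]

theorem uu_zero : uu p 0 = 1 := by
  have h := uu_add (p := p) 0 0
  rw [add_zero] at h
  exact (left_eq_mul.1 h)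

theorem vv_zero : vv p 0 = 1 := by
  have h := vv_add (p := p) 0 0
  rw [add_zero] at h
  exact (left_eq_mul.1 h)

theorem uu_pow (x : ZMod p) (k : ℕ) : uu p x ^ k = uu p (k * x) := by
  induction k with
  | zero => rw [pow_zero, Nat.cast_zero, zero_mul, uu_zero]
  | succ k ih => rw [pow_succ, ih, ← uu_add]; congr 1; push_cast; ring

theorem vv_pow (x : ZMod p) (k : ℕ) : vv p x ^ k = vv p (k * x) := by
  induction k with
  | zero => rw [pow_zero, Nat.cast_zero, zero_mul, vv_zero]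
  | succ k ih => rw [pow_succ, ih, ← vv_add]; congr 1; push_cast; ring

/-- a matrix with first column `(ε, 0)` -/
theorem eq_uu {A : SpecialLinearGroup (Fin 2) (ZMod p)} {ε : ZMod p} (hε : ε * ε = 1)
    (h0 : A.1 0 0 = ε) (h1 : A.1 1 0 = 0) : ∃ x, mk' A = uu p x := by
  have hd := det2 A
  rw [h0, h1] at hd
  have h3 : A.1 1 1 = ε := by linear_combination ε * hd - A.1 1 1 * hε
  refine ⟨A.1 0 1 * ε, ?_⟩
  refine mk_eq.2 ⟨ε, hε, fun i j => ?_⟩
  fin_cases i <;> fin_cases j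
  · simp [h0, hε]
  · simp
  · simp [h1]
  · simp [h3, hε]

/-- a matrix with second column `(0, ε)` -/
theorem eq_vv {A : SpecialLinearGroup (Fin 2) (ZMod p)} {ε : ZMod p} (hε : ε * ε = 1)
    (h0 : A.1 0 1 = 0) (h1 : A.1 1 1 = ε) : ∃ x, mk' A = vv p x := by
  have hd := det2 A
  rw [h0, h1] at hd
  have h3 : A.1 0 0 = ε := by linear_combination ε * hd - A.1 0 0 * hε
  refine ⟨A.1 1 0 * ε, ?_⟩
  refine mk_eq.2 ⟨ε, hε, fun i j => ?_⟩
  fin_cases i <;> fin_cases j
  · simp [h3, hε]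
  · simp [h0]
  · simp
  · simp [h1, hε]

/-- the eigenvector of an element of order `p` -/
theorem eigen {A : SpecialLinearGroup (Fin 2) (ZMod p)} (hA : mk' A ^ p = 1) :
    ∃ a c ε : ZMod p, (a ≠ 0 ∨ c ≠ 0) ∧ ε * ε = 1 ∧ A.1 0 0 * a + A.1 0 1 * c = ε * a ∧
      A.1 1 0 * a + A.1 1 1 * c = ε * c := by
  have h1 : A ^ p ∈ Subgroup.center (SpecialLinearGroup (Fin 2) (ZMod p)) := by
    rw [← QuotientGroup.eq_one_iff, QuotientGroup.mk_pow]
    exact hA
  rw [Matrix.SpecialLinearGroup.mem_center_iff] at h1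
  obtain ⟨ε, hε, h2⟩ := h1
  have hε' : ε * ε = 1 := by simpa [pow_two] using hε
  have h3 : (A.1 - scalar (Fin 2) ε) ^ p = 0 := by
    rw [sub_pow_char_of_commute p (Matrix.scalar_commute ε (fun r' => Commute.all _ _) A.1).symm,
      ← map_pow, ZMod.pow_card, h2]
    simp
  have h4 : (A.1 - scalar (Fin 2) ε).det = 0 := by
    have h5 := congrArg Matrix.det h3
    rw [Matrix.det_pow, Matrix.det_zero] at h5
    exact pow_eq_zero_iff (Fact.out (p := p.Prime)).ne_zero |>.1 h5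
  obtain ⟨v, hv, hv2⟩ := Matrix.exists_mulVec_eq_zero_iff.2 h4
  refine ⟨v 0, v 1, ε, ?_, hε', ?_, ?_⟩
  · by_contra hcon
    push Not at hcon
    apply hv
    ext i
    fin_cases i
    · exact hcon.1
    · exact hcon.2
  · have h6 := congrFun hv2 0
    simp [Matrix.mulVec, dotProduct, Fin.sum_univ_two] at h6
    linear_combination h6
  · have h6 := congrFun hv2 1
    simp [Matrix.mulVec, dotProduct, Fin.sum_univ_two] at h6
    linear_combination h6

/-- conjugation to an upper unipotent element -/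
theorem conj_uu {A D : SpecialLinearGroup (Fin 2) (ZMod p)} {ε : ZMod p} (hε : ε * ε = 1)
    (h1 : A.1 0 0 * D.1 0 0 + A.1 0 1 * D.1 1 0 = ε * D.1 0 0)
    (h2 : A.1 1 0 * D.1 0 0 + A.1 1 1 * D.1 1 0 = ε * D.1 1 0) :
    ∃ x, (mk' D)⁻¹ * mk' A * mk' D = uu p x := by
  have hd := det2 D
  have e : (mk' D)⁻¹ * mk' A * mk' D = mk' (D⁻¹ * A * D) := rfl
  rw [e]
  refine eq_uu (ε := ε) hε ?_ ?_
  · rw [entry_mul, entry_mul, entry_mul, inv_val]
    simp
    linear_combination D.1 1 1 * h1 - D.1 0 1 * h2 + ε * hd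
  · rw [entry_mul, entry_mul, entry_mul, inv_val]
    simp
    linear_combination - D.1 1 0 * h1 + D.1 0 0 * h2

/-- conjugation to a lower unipotent element -/
theorem conj_vv {A D : SpecialLinearGroup (Fin 2) (ZMod p)} {ε : ZMod p} (hε : ε * ε = 1)
    (h1 : A.1 0 0 * D.1 0 1 + A.1 0 1 * D.1 1 1 = ε * D.1 0 1)
    (h2 : A.1 1 0 * D.1 0 1 + A.1 1 1 * D.1 1 1 = ε * D.1 1 1) :
    ∃ x, (mk' D)⁻¹ * mk' A * mk' D = vv p x := by
  have hd := det2 D
  have e : (mk' D)⁻¹ * mk' A * mk' D = mk' (D⁻¹ * A * D) := rfl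
  rw [e]
  refine eq_vv (ε := ε) hε ?_ ?_
  · rw [entry_mul, entry_mul, entry_mul, inv_val]
    simp
    linear_combination D.1 1 1 * h1 - D.1 0 1 * h2
  · rw [entry_mul, entry_mul, entry_mul, inv_val]
    simp
    linear_combination - D.1 1 0 * h1 + D.1 0 0 * h2 + ε * hd

/-- a matrix with given first column -/
theorem exists_col {a c : ZMod p} (h : a ≠ 0 ∨ c ≠ 0) :
    ∃ D : SpecialLinearGroup (Fin 2) (ZMod p), D.1 0 0 = a ∧ D.1 1 0 = c := by
  by_cases ha : a = 0
  · have hc : c ≠ 0 := h.resolve_left (not_not.2 ha)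
    refine ⟨⟨!![a, -c⁻¹; c, 0], ?_⟩, rfl, rfl⟩
    rw [Matrix.det_fin_two_of]
    field_simp
    simp
  · refine ⟨⟨!![a, 0; c, a⁻¹], ?_⟩, rfl, rfl⟩
    rw [Matrix.det_fin_two_of]
    field_simp
    simp

theorem not_comm : uu p 1 * vv p 1 ≠ vv p 1 * uu p 1 := by
  intro h
  rw [uu_def, vv_def, ← mk_mul, ← mk_mul] at h
  rw [mk_eq] at h
  obtain ⟨r, -, h1⟩ := h
  have e1 := h1 0 1
  have e2 := h1 0 0
  rw [entry_mul, entry_mul] at e1 e2
  simp [Um, Vm] at e1 e2
  rw [← e1] at e2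
  have e3 : (1 : ZMod p) = 0 := by linear_combination -e2
  exact one_ne_zero e3

end Pool.Agent.Helper8.HZ

namespace Pool.Agent.Helper4.HZ

open Pool.Agent.Helper8.HZ Matrix

theorem AUA_holds : S_AUA := by
  intro p _ φ
  have hp0 : ((p : ℕ) : ZMod p) = 0 := ZMod.natCast_self p
  obtain ⟨A, hA⟩ := QuotientGroup.mk_surjective (φ (uu p 1))
  obtain ⟨B, hB⟩ := QuotientGroup.mk_surjective (φ (vv p 1))
  change mk' A = _ at hA
  change mk' B = _ at hB
  have hAp : mk' A ^ p = 1 := by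
    rw [hA, ← map_pow, uu_pow, hp0, zero_mul, uu_zero, map_one]
  have hBp : mk' B ^ p = 1 := by
    rw [hB, ← map_pow, vv_pow, hp0, zero_mul, vv_zero, map_one]
  obtain ⟨a, c, ε, hac, hε, a1, a2⟩ := eigen hAp
  obtain ⟨b, d, δ, hbd, hδ, b1, b2⟩ := eigen hBp
  have hne : a * d - b * c ≠ 0 := by
    intro h0
    obtain ⟨t, t1, t2⟩ : ∃ t, a = t * b ∧ c = t * d := by
      by_cases hb : b = 0
      · have hd : d ≠ 0 := hbd.resolve_left (not_not.2 hb)
        have ha : a = 0 := by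
          rw [hb, zero_mul, sub_zero] at h0
          exact (mul_eq_zero.1 h0).resolve_right hd
        exact ⟨c / d, by rw [ha, hb, mul_zero], by field_simp⟩
      · refine ⟨a / b, by field_simp, ?_⟩
        field_simp
        linear_combination -h0
    obtain ⟨D, d1, d2⟩ := exists_col hac
    obtain ⟨x, hx⟩ := conj_uu (A := A) (D := D) hε (by rw [d1, d2]; exact a1)
      (by rw [d1, d2]; exact a2)
    obtain ⟨y, hy⟩ := conj_uu (A := B) (D := D) hδ
      (by rw [d1, d2, t1, t2]; linear_combination t * b1)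
      (by rw [d1, d2, t1, t2]; linear_combination t * b2)
    have hcomm : uu p x * uu p y = uu p y * uu p x := by
      rw [← uu_add, ← uu_add, add_comm]
    rw [← hx, ← hy] at hcomm
    have h3 : mk' A * mk' B = mk' B * mk' A := by
      have e1 : (mk' D)⁻¹ * mk' A * mk' D * ((mk' D)⁻¹ * mk' B * mk' D) =
        (mk' D)⁻¹ * (mk' A * mk' B) * mk' D := by group
      have e2 : (mk' D)⁻¹ * mk' B * mk' D * ((mk' D)⁻¹ * mk' A * mk' D) =
        (mk' D)⁻¹ * (mk' B * mk' A) * mk' D := by group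
      rw [e1, e2] at hcomm
      exact mul_left_cancel (mul_right_cancel hcomm)
    rw [hA, hB, ← map_mul, ← map_mul] at h3
    exact not_comm (φ.injective h3)
  set Δ := a * d - b * c with hΔ
  set D : SpecialLinearGroup (Fin 2) (ZMod p) := ⟨!![a, b / Δ; c, d / Δ], by
    rw [Matrix.det_fin_two_of]
    field_simp
    exact hΔ.symm⟩ with hD
  have q1 : D.1 0 0 = a := rfl
  have q2 : D.1 1 0 = c := rfl
  have q3 : D.1 0 1 = b / Δ := rfl
  have q4 : D.1 1 1 = d / Δ := rfl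
  obtain ⟨x, hx⟩ := conj_uu (A := A) (D := D) hε (by rw [q1, q2]; exact a1)
    (by rw [q1, q2]; exact a2)
  obtain ⟨y, hy⟩ := conj_vv (A := B) (D := D) hδ
    (by rw [q3, q4]; field_simp; linear_combination b1)
    (by rw [q3, q4]; field_simp; linear_combination b2)
  have hval : ∀ z : ZMod p, ((z.val : ℕ) : ZMod p) = z := fun z => ZMod.natCast_zmod_val z
  refine ⟨(mk' D)⁻¹, fun z => ⟨z * x, ?_⟩, fun z => ⟨z * y, ?_⟩⟩
  · have e : uu p z = uu p 1 ^ z.val := by rw [uu_pow, hval, mul_one]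
    rw [e, map_pow, ← hA, inv_inv]
    have e2 : (mk' D)⁻¹ * mk' A ^ z.val * mk' D = ((mk' D)⁻¹ * mk' A * mk' D) ^ z.val := by
      have := conj_pow (i := z.val) (a := (mk' D)⁻¹) (b := mk' A)
      rw [inv_inv] at this
      exact this.symm
    rw [e2, hx, uu_pow, hval]
  · have e : vv p z = vv p 1 ^ z.val := by rw [vv_pow, hval, mul_one]
    rw [e, map_pow, ← hB, inv_inv]
    have e2 : (mk' D)⁻¹ * mk' B ^ z.val * mk' D = ((mk' D)⁻¹ * mk' B * mk' D) ^ z.val := by
      have := conj_pow (i := z.val) (a := (mk' D)⁻¹) (b := mk' B)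
      rw [inv_inv] at this
      exact this.symm
    rw [e2, hy, vv_pow, hval]

end Pool.Agent.Helper4.HZ
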