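import Pool.Agent.Helper4.HZ.Goals

/-! # Project HZ, packet UDA: the data of the order of the automorphism group -/

namespace Pool.Agent.Helper4.HZ

open Pool.Agent.Helper23.Hurwitz

theorem UDA_holds (hBCD : S_BCD) (hDAT : S_DAT) : S_UDA := by
  intro X g hg
  obtain ⟨hg2, h1, hfac⟩ := hg
  have hn : 84 ≤ 84 * (g - 1) := by omega
  unfold hurwitzNumber at h1
  rw [Nat.card_eq_one_iff_unique] at h1
  obtain ⟨hsub, ⟨⟨N, hN, hidx, hsm⟩⟩⟩ := h1
  have hne : N.index ≠ 0 := by omega
  have huniq : ∀ N' : Subgroup Delta, N'.Normal → N'.index = N.index → N' = N := by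
    intro N' hN' hi
    have hsm' : IsSmooth N' := by
      apply isSmooth_of_ne_top
      rintro rfl
      rw [Subgroup.index_top] at hi
      omega
    exact congrArg Subtype.val (Subsingleton.elim
      (⟨N', hN', hi.trans hidx, hsm'⟩ :
        {K : Subgroup Delta // K.Normal ∧ K.index = 84 * (g - 1) ∧ IsSmooth K})
      ⟨N, hN, hidx, hsm⟩)
  obtain ⟨i, hi1, hi2, hi3⟩ := Nat.forall_exists_prime_gt_and_modEq N.index
    (show (7 : ℕ) ≠ 0 by norm_num) (show Nat.Coprime 3 7 by norm_num)
  have hcop : i.Coprime N.index := by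
    rw [Nat.Prime.coprime_iff_not_dvd hi2]
    intro h
    exact absurd (Nat.le_of_dvd (Nat.pos_of_ne_zero hne) h) (not_le.2 hi1)
  obtain ⟨α, hα⟩ := hBCD N hne huniq i hcop
  have : Finite (Delta ⧸ N) := Nat.finite_of_card_ne_zero hne
  have hcard : Nat.card (Delta ⧸ N) = 84 * (g - 1) := hidx
  rw [← hcard]
  refine hDAT X (Delta ⧸ N) (QuotientGroup.mk' N (gx * gy)) i α ?_ ?_ ?_ hα ?_ (hfac N hidx hsm)
  · intro A _ f
    have h := hom_comm_trivial (fun a b => mul_comm a b) (f.comp (QuotientGroup.mk' N))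
    refine MonoidHom.ext fun x => ?_
    obtain ⟨x, rfl⟩ := QuotientGroup.mk'_surjective N x
    exact DFunLike.congr_fun h x
  · rw [← map_pow, gz_pow, map_one]
  · intro M hM hz
    have h := eq_top_of_gz_mem (M.comap (QuotientGroup.mk' N)) hz
    rw [eq_top_iff]
    intro x _
    obtain ⟨x, rfl⟩ := QuotientGroup.mk'_surjective N x
    have h2 : x ∈ M.comap (QuotientGroup.mk' N) := by
      rw [h]
      exact Subgroup.mem_top x
    exact h2
  · exact hi3

end Pool.Agent.Helper4.HZ
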